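import Pool.Agent.X13.Lenstra.Cycle
import Pool.Agent.X13.Lenstra.Base

/-!
# 2-adic integrality of the Lenstra (Göbel) sequence

`x_0 = 1` and `x_n = (1 + x_0^2 + ... + x_{n-1}^2) / n`.  Every `x_n` is a 2-adic integer.
-/

open Finset

namespace Pool.Agent.Results.MP_d9e015_nt.TwoAdicIntegrality

open Pool.Agent.X13.Lenstra

/-- **Main theorem (Boyd's question).** If `x_0 = 1` and
`x_n = (1 + x_0^2 + x_1^2 + ... + x_{n-1}^2) / n` for `n ≥ 1`, then the denominator of `x_n` in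
lowest terms is odd for every `n`. -/
theorem result (x : ℕ → ℚ) (h0 : x 0 = 1)
    (hx : ∀ n : ℕ, 1 ≤ n → x n = (1 + ∑ i ∈ range n, x i ^ 2) / n) :
    ∀ n : ℕ, Odd (x n).den := by
  have hrec : Rec x := by
    intro n hn
    have hn0 : (n : ℚ) ≠ 0 := by
      have : 0 < n := hn
      positivity
    have h1 := hx n hn
    have h2 := hx (n + 1) (by omega)
    rw [Finset.sum_range_succ] at h2
    have hn1 : ((n : ℚ) + 1) ≠ 0 := by positivity
    have h3 : (n : ℚ) * x n = 1 + ∑ i ∈ range n, x i ^ 2 := by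
      rw [h1]; field_simp
    rw [h2]
    push_cast
    rw [mul_div_cancel₀ _ hn1]
    linear_combination -h3
  have hx1 : x 1 = 2 := by
    rw [hx 1 (le_refl 1)]
    simp [h0]
    norm_num
  have hr1 : Res x 1 2 271 := ⟨0, by rw [hx1]; push_cast; simp [coe_two]⟩
  obtain ⟨hg, hf⟩ := check_sound hrec cert 1 2 271 (le_refl 1) cert_check hr1
  obtain ⟨f1, f2, f3⟩ := cert_final
  rw [f1, f3] at hf
  have hbase : St x 257 12 3 5 := by
    obtain ⟨z, hz⟩ := hf
    set r := (final 1 2 271 cert).2.1 with hr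
    obtain ⟨t, ht⟩ : ∃ t : ℕ, 257 * r = 5 * 2 ^ 12 + 2 ^ 15 * t := by
      refine ⟨257 * r / 2 ^ 15, ?_⟩
      have := Nat.div_add_mod (257 * r) (2 ^ 15)
      omega
    refine ⟨((5 : ℕ) : ℤ_[2]) + 2 ^ 3 * ((t : ℤ_[2]) + 2 * 257 * z), ?_, _, rfl⟩
    have ht' : (257 : ℚ_[2]) * (r : ℚ_[2]) = 5 * 2 ^ 12 + 2 ^ 15 * (t : ℚ_[2]) := by
      exact_mod_cast ht
    rw [hz]
    push_cast
    have e5 : ((5 : ℤ_[2]) : ℚ_[2]) = 5 := rfl
    have e257 : ((257 : ℤ_[2]) : ℚ_[2]) = 257 := rfl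
    simp only [coe_two, e5, e257]
    linear_combination ht'
  have hgood : ∀ n, 1 ≤ n → Good x n := by
    intro n hn
    rcases Nat.lt_or_ge n 257 with h | h
    · have := hg (n - 1) (by rw [cert_length]; omega)
      rwa [show 1 + (n - 1) = n by omega] at this
    · exact good_of_base hrec 3 hbase n h
  intro n
  rcases Nat.eq_zero_or_pos n with h | h
  · subst h
    rw [h0]
    decide
  · obtain ⟨X, hX⟩ := hgood n h
    have h1 : ‖((x n : ℚ) : ℚ_[2])‖ ≤ 1 := by
      rw [hX]; exact X.2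
    have h2 := PadicInt.isUnit_den (p := 2) (x n) h1
    rw [PadicInt.isUnit_iff, PadicInt.norm_natCast_eq_one_iff] at h2
    exact (Nat.coprime_two_left).1 h2

end Pool.Agent.Results.MP_d9e015_nt.TwoAdicIntegrality
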